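import Pool.Agent.H8.AV3.Stmts

/-!
# AV3, module KEY: every point is represented by an integral ternary cubic form
-/

set_option autoImplicit false

namespace Pool.Agent.H19.AV3

open Polynomial Matrix Pool.AVR Pool.AV3

section General

variable {K : Type} [Field K]

/-- The equation without denominators. -/
theorem clear_eq {a b c u v w : K} (hw : w ≠ 0) (h : OnC a b c (u / w ^ 2) (v / w ^ 3)) :
    v ^ 2 = u ^ 3 + a * u ^ 2 * w ^ 2 + b * u * w ^ 4 + c * w ^ 6 := by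
  unfold OnC at h
  field_simp at h
  linear_combination h

/-- The equation after scaling. -/
theorem scale_eq {a b c x y t : K} (ht : t ≠ 0) (h : OnC a b c x y) :
    OnC (a / t ^ 2) (b / t ^ 4) (c / t ^ 6) (x / t ^ 2) (y / t ^ 3) := by
  unfold OnC at h ⊢
  field_simp
  linear_combination h

/-- Substitutions with entries in a subring. -/
theorem tsub_mem (O : Subring K) (c : Fin 10 → K) (g : Matrix (Fin 3) (Fin 3) K)
    (hc : ∀ i, c i ∈ O) (hg : ∀ i j, g i j ∈ O) (i : Fin 10) : tsub c g i ∈ O := by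
  have h := congrFun (map_tsub O.subtype (fun i => (⟨c i, hc i⟩ : O))
    (Matrix.of fun i j => (⟨g i j, hg i j⟩ : O))) i
  have e : (Matrix.of fun i j => (⟨g i j, hg i j⟩ : O)).map O.subtype = g := by
    ext i j
    rfl
  rw [e] at h
  have h2 : tsub c g i = O.subtype (tsub (fun i => (⟨c i, hc i⟩ : O))
    (Matrix.of fun i j => (⟨g i j, hg i j⟩ : O)) i) := h.symm
  rw [h2]
  exact SetLike.coe_mem _

/-- Diagonal substitutions. -/
theorem tsub_diag (c : Fin 10 → K) (v : Fin 3 → K) (i : Fin 10) :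
    tsub c (Matrix.diagonal v) i = c i * ∏ s, v (tr i s) := by
  rw [Fin.prod_univ_three]
  fin_cases i <;>
  simp [tsub, tev, tder, tr, Matrix.diagonal, -mul_eq_mul_left_iff, -mul_eq_mul_right_iff] <;>
  ring

/-- Scaling of the form. -/
theorem eqv_smul_form {g : Matrix (Fin 3) (Fin 3) K} {c c' : Fin 10 → K} (h : Eqv g c c')
    (t : K) : Eqv g (t • c) (t • c') := by
  refine ⟨h.1, ?_⟩
  rw [tsub_smul_form, h.2, smul_smul, smul_smul, mul_comm]

end General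

section Function

variable {F : Type} [Field F]

theorem mem_OInf_iff (x : RatFunc F) : x ∈ OInf F ↔ x.intDegree ≤ 0 := Iff.rfl

/-- `a / X ^ k` is regular at infinity if `a` has degree at most `k`. -/
theorem div_mem_OInf (a : F[X]) (k : ℕ) (h : a.natDegree ≤ k) :
    algebraMap F[X] (RatFunc F) a / (RatFunc.X : RatFunc F) ^ k ∈ OInf F := by
  rw [mem_OInf_iff]
  by_cases ha : a = 0
  · simp [ha]
  have ha' : algebraMap F[X] (RatFunc F) a ≠ 0 := by
    simpa using ha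
  have hX : (RatFunc.X : RatFunc F) ^ k ≠ 0 := pow_ne_zero _ RatFunc.X_ne_zero
  have hX1 : (RatFunc.X : RatFunc F) ^ k = algebraMap F[X] (RatFunc F) ((X : F[X]) ^ k) := by
    rw [map_pow, RatFunc.algebraMap_X]
  have hXi : ((RatFunc.X : RatFunc F) ^ k).intDegree = (k : ℤ) := by
    rw [hX1, RatFunc.intDegree_polynomial, natDegree_X_pow]
  rw [div_eq_mul_inv, RatFunc.intDegree_mul ha' (inv_ne_zero hX), RatFunc.intDegree_inv,
    RatFunc.intDegree_polynomial, hXi]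
  have : (a.natDegree : ℤ) ≤ k := by exact_mod_cast h
  omega

theorem intDegree_X_pow' (k : ℕ) : ((RatFunc.X : RatFunc F) ^ k).intDegree = (k : ℤ) := by
  have hX1 : (RatFunc.X : RatFunc F) ^ k = algebraMap F[X] (RatFunc F) ((X : F[X]) ^ k) := by
    rw [map_pow, RatFunc.algebraMap_X]
  rw [hX1, RatFunc.intDegree_polynomial, natDegree_X_pow]

theorem intDegree_X_zpow (k : ℤ) : ((RatFunc.X : RatFunc F) ^ k).intDegree = k := by
  obtain ⟨m, rfl | rfl⟩ := k.eq_nat_or_neg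
  · rw [zpow_natCast, intDegree_X_pow']
  · rw [_root_.zpow_neg, zpow_natCast, RatFunc.intDegree_inv, intDegree_X_pow']

/-- A polynomial which is `X ^ k` times a function regular at infinity. -/
theorem natDegree_le_of (p : F[X]) (k : ℤ) (z : RatFunc F) (hz : z ∈ OInf F) (hp : p ≠ 0)
    (h : algebraMap F[X] (RatFunc F) p = (RatFunc.X : RatFunc F) ^ k * z) :
    (p.natDegree : ℤ) ≤ k := by
  have hp' : algebraMap F[X] (RatFunc F) p ≠ 0 := by simpa using hp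
  have hz0 : z ≠ 0 := by
    rintro rfl
    exact hp' (by rw [h, mul_zero])
  have hX : (RatFunc.X : RatFunc F) ^ k ≠ 0 := zpow_ne_zero _ RatFunc.X_ne_zero
  have h1 := congrArg RatFunc.intDegree h
  rw [RatFunc.intDegree_mul hX hz0, RatFunc.intDegree_polynomial, intDegree_X_zpow] at h1
  have h2 := (mem_OInf_iff z).1 hz
  omega

end Function

theorem key_thm (hLAT : Pool.AV3.LATStmt) (hCPR : Pool.AV3.CPRStmt) (hSCL : Pool.AV3.SCLStmt)
    (hDEN : Pool.AVR.DENStmt) (hDNI : Pool.AVR.DNIStmt) (hBIR : Pool.AVR.BIRStmt) :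
    Pool.AV3.KEYStmt := by
  intro F _ _ h2 n f hf x y hxy hy
  obtain ⟨a, b, c⟩ := f
  obtain ⟨hda, hdb, hdc⟩ := hf
  unfold OnK at hxy
  unfold FK
  simp only at hda hdb hdc hxy ⊢
  set φ := algebraMap F[X] (RatFunc F) with hφ
  have hφi : Function.Injective φ := RatFunc.algebraMap_injective F
  -- the finite part
  obtain ⟨u, v, w, hw, hwv, hx1, hy1⟩ := hDEN F a b c x y hxy
  have hw' : φ w ≠ 0 := by
    intro h
    exact hw (hφi (by rw [h, map_zero]))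
  have heq1 := clear_eq hw' (by rw [← hx1, ← hy1]; exact hxy)
  have heq1' : v ^ 2 = u ^ 3 + a * u ^ 2 * w ^ 2 + b * u * w ^ 4 + c * w ^ 6 := by
    apply hφi
    simp only [map_add, map_mul, map_pow]
    exact heq1
  obtain ⟨r, s, hrs⟩ := hCPR F[X] a b c u v w hwv heq1'
  have hmem : ∀ p : F[X], φ p ∈ φ.range := fun p => ⟨p, rfl⟩
  obtain ⟨c1, hc1, hE1⟩ := hLAT (RatFunc F) φ.range (φ a) (φ b) (φ c)
    (φ u) (φ v) (φ w) (φ r) (φ s) (hmem _) (hmem _) (hmem _) (hmem _) (hmem _) (hmem _)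
    (hmem _) (hmem _) hw' (by rw [← map_pow, ← map_mul, ← map_mul, ← map_add, hrs, map_one])
    heq1
  rw [← hx1, ← hy1] at hE1
  choose p1 hp1 using fun i => (RingHom.mem_range.1 (hc1 i))
  have hp1' : mp p1 = c1 := by
    funext i
    exact hp1 i
  rw [← hp1'] at hE1
  -- the part at infinity
  set t : RatFunc F := (RatFunc.X : RatFunc F) ^ n with ht
  have ht0 : t ≠ 0 := pow_ne_zero _ RatFunc.X_ne_zero
  have ht2 : t ^ 2 = (RatFunc.X : RatFunc F) ^ (2 * n) := by rw [ht, ← pow_mul, mul_comm]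
  have ht4 : t ^ 4 = (RatFunc.X : RatFunc F) ^ (4 * n) := by rw [ht, ← pow_mul, mul_comm]
  have ht6 : t ^ 6 = (RatFunc.X : RatFunc F) ^ (6 * n) := by rw [ht, ← pow_mul, mul_comm]
  have ha' : φ a / t ^ 2 ∈ OInf F := by rw [ht2]; exact div_mem_OInf a _ hda
  have hb' : φ b / t ^ 4 ∈ OInf F := by rw [ht4]; exact div_mem_OInf b _ hdb
  have hc' : φ c / t ^ 6 ∈ OInf F := by rw [ht6]; exact div_mem_OInf c _ hdc
  have hxy' := scale_eq ht0 hxy
  have hy' : y / t ^ 3 ≠ 0 := div_ne_zero hy (pow_ne_zero _ ht0)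
  obtain ⟨u', v', w', r', s', hu', hv'', hw'', hr', hs', hw0, hv0, hrs', hx2, hy2⟩ :=
    hDNI F (φ a / t ^ 2) (φ b / t ^ 4) (φ c / t ^ 6) (x / t ^ 2) (y / t ^ 3) ha' hb' hc' hxy' hy'
  have heq2 := clear_eq hw0 (by rw [← hx2, ← hy2]; exact hxy')
  obtain ⟨r2, s2, hrs2⟩ := hCPR (OInf F) ⟨_, ha'⟩ ⟨_, hb'⟩ ⟨_, hc'⟩ ⟨u', hu'⟩ ⟨v', hv''⟩
    ⟨w', hw''⟩ ⟨⟨r', hr'⟩, ⟨s', hs'⟩, Subtype.ext hrs'⟩ (Subtype.ext heq2)
  have hrs2' : (r2 : RatFunc F) * w' ^ 3 + s2 * u' = 1 := by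
    have := congrArg (Subtype.val) hrs2
    simpa using this
  obtain ⟨c2, hc2, hE2⟩ := hLAT (RatFunc F) (OInf F) (φ a / t ^ 2)
    (φ b / t ^ 4) (φ c / t ^ 6) u' v' w' r2 s2 ha' hb' hc' hu' hv'' hw'' r2.2 s2.2 hw0 hrs2' heq2
  rw [← hx2, ← hy2] at hE2
  have hE3 := (hSCL (RatFunc F) (φ a) (φ b) x y t ht0).trans (eqv_smul_form hE2 t)
  -- comparison
  have hE4 := hE3.symm.trans hE1
  obtain ⟨γ, d, κ, hγ, hκ, hκ0, hκ1, hfac⟩ := hBIR F _ hE4.1.ne_zero
  obtain ⟨ε, hε⟩ := hγ.exists_right_inv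
  have hE5 : Eqv γ p1 (ε • tsub p1 γ) := by
    refine ⟨hγ, ?_⟩
    rw [smul_smul, hε, one_smul]
  have hE6 := hE5.map φ
  have hE7 := hE4.trans hE6
  rw [hfac] at hE7
  refine ⟨d, ε • tsub p1 γ, ?_, _, hE1.trans hE6⟩
  intro i hi
  have h7 := congrFun hE7.2 i
  rw [← Pool.AV3.tsub_mul, tsub_diag, tsub_smul_form, det_mul, det_diagonal] at h7
  simp only [Pi.smul_apply, smul_eq_mul] at h7
  have hX0 : (RatFunc.X : RatFunc F) ≠ 0 := RatFunc.X_ne_zero
  have hprod : ∀ g : Fin 3 → ℤ, ∏ s, (RatFunc.X : RatFunc F) ^ g s =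
      (RatFunc.X : RatFunc F) ^ (∑ s, g s) := by
    intro g
    rw [Fin.prod_univ_three, Fin.sum_univ_three, zpow_add₀ hX0, zpow_add₀ hX0]
  rw [hprod (fun s => d (tr i s)), hprod d] at h7
  apply natDegree_le_of _ _ ((κ.det)⁻¹ * tsub c2 κ i)
    ((OInf F).mul_mem hκ1 (tsub_mem _ _ _ hc2 hκ i)) hi
  have hXd : (RatFunc.X : RatFunc F) ^ (∑ s, d s) ≠ 0 := zpow_ne_zero _ hX0
  rw [zpow_sub₀ hX0, zpow_add₀ hX0, zpow_natCast, ← ht]
  have h8 : φ ((ε • tsub p1 γ) i) = (κ.det * (RatFunc.X : RatFunc F) ^ (∑ s, d s))⁻¹ *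
      (t * tsub c2 κ i * (RatFunc.X : RatFunc F) ^ (∑ s, d (tr i s))) := by
    rw [h7, ← mul_assoc, inv_mul_cancel₀ (mul_ne_zero hκ0 hXd), one_mul]
    rfl
  rw [h8]
  field_simp

end Pool.Agent.H19.AV3
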